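import Pool.Agent.Run7.h568.DG.CIface

/-!
# Loops of strands in the twisted surface: `C_comb → C_let → C_tele → C_loop` (helper896)
-/

open Real Matrix Filter Topology

noncomputable section

namespace Run7.h896.DG

open Run7.h568.DG

variable {D : Type} [Fintype D] [DecidableEq D] {T : Tri D} {P : Portal T}

theorem cross_fst (P : Portal T) (c : D → ℕ) (a : ℕ) (s : D × ℕ) :
    (s.1 = T.io P.u ∧ T.num c P.u ≤ s.2 ∧ (P.cross c a s).1 = P.v) ∨
    (s.1 = P.v ∧ s.2 < a ∧ s.1 ≠ T.io P.u ∧ (P.cross c a s).1 = T.io P.u) ∨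
    (¬ (s.1 = T.io P.u ∧ T.num c P.u ≤ s.2) ∧ ¬ (s.1 = P.v ∧ s.2 < a) ∧
      (P.cross c a s).1 = T.io s.1) := by
  by_cases h1 : s.1 = T.io P.u
  · by_cases h2 : T.num c P.u ≤ s.2
    · left
      refine ⟨h1, h2, ?_⟩
      unfold Portal.cross
      rw [if_pos h1, if_pos h2]
    · right; right
      refine ⟨fun h => h2 h.2, fun h => P.hne (h.1.symm.trans h1), ?_⟩
      unfold Portal.cross
      rw [if_pos h1, if_neg h2, h1, T.io_io]
  · by_cases h2 : s.1 = P.v
    · by_cases h3 : s.2 < a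
      · right; left
        refine ⟨h2, h3, h1, ?_⟩
        unfold Portal.cross
        rw [if_neg h1, if_pos h2, if_pos h3]
      · right; right
        refine ⟨fun h => h1 h.1, fun h => h3 h.2, ?_⟩
        unfold Portal.cross
        rw [if_neg h1, if_pos h2, if_neg h3, h2]
    · right; right
      refine ⟨fun h => h1 h.1, fun h => h2 h.1, ?_⟩
      unfold Portal.cross
      rw [if_neg h1, if_neg h2]
      by_cases h3 : s.1 = T.io P.v
      · rw [if_pos h3, h3, T.io_io]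
      · rw [if_neg h3]

theorem hol_append (P : Portal T) (p : (D → ℝ) × ℝ) (l1 l2 : List Letter) (d : D) :
    P.hol p (l1 ++ l2) d = P.hol p l1 d * P.hol p l2 (P.endp l1 d) := by
  induction l1 generalizing d with
  | nil => simp [Portal.hol, Portal.endp]
  | cons l l1 ih =>
    show P.mat p d l * P.hol p (l1 ++ l2) (P.nxt d l) =
      P.mat p d l * P.hol p l1 (P.nxt d l) * P.hol p l2 (P.endp l1 (P.nxt d l))
    rw [ih, mul_assoc]

theorem endp_append (P : Portal T) (l1 l2 : List Letter) (d : D) :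
    P.endp (l1 ++ l2) d = P.endp l2 (P.endp l1 d) := by
  induction l1 generalizing d with
  | nil => rfl
  | cons l l1 ih => exact ih _

/-- The gauge relates the transports across edges. -/
theorem xm_gauge (t : PTD P) (p : (D → ℝ) × ℝ) (g : D → SL)
    (hg : ∀ d, t.Ri p d * g (T.io d) = g d * E ((t.tw p).1 d))
    (hJ : t.RJ p * g P.v = g P.u * P.J (t.tw p))
    (hio : ∀ d, (t.tw p).1 (T.io d) = (t.tw p).1 d) (s : D × ℕ) :
    g s.1 * P.xm (t.tw p) t.c t.a s = t.xR p s * g (P.cross t.c t.a s).1 := by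
  rcases cross_fst P t.c t.a s with ⟨h1, h2, h3⟩ | ⟨h1, h2, h3, h4⟩ | ⟨h1, h2, h3⟩
  · unfold Portal.xm PTD.xR
    rw [if_pos ⟨h1, h2⟩, if_pos ⟨h1, h2⟩, h3, h1, mul_assoc, hJ, ← mul_assoc, ← mul_assoc]
    have h := hg (T.io P.u)
    rw [T.io_io, hio] at h
    rw [h]
  · unfold Portal.xm PTD.xR
    have hn : ¬ (s.1 = T.io P.u ∧ T.num t.c P.u ≤ s.2) := fun h => h3 h.1
    rw [if_neg hn, if_neg hn, if_pos ⟨h1, h2⟩, if_pos ⟨h1, h2⟩, h4, h1, mul_assoc (t.RJ p)⁻¹,
      hg P.u, ← mul_assoc, ← mul_assoc]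
    congr 1
    rw [eq_inv_mul_iff_mul_eq, ← mul_assoc, hJ]
    group
  · unfold Portal.xm PTD.xR
    rw [if_neg h1, if_neg h1, if_neg h2, if_neg h2, h3]
    exact (hg s.1).symm

theorem out_fst (c : D → ℕ) (w : D × ℕ) :
    (Portal.out (T := T) c w).1 = if Tri.sbit c w then T.sg w.1 else T.sg (T.sg w.1) := by
  unfold Portal.out Tri.sbit
  by_cases h : w.2 < c w.1
  · have h' : ¬ c w.1 ≤ w.2 := by omega
    simp [h, h']
  · have h' : c w.1 ≤ w.2 := by omega
    simp [h, h']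

theorem loop_step (hL : C_let) (hT : C_tele) (t : PTD P) (p : (D → ℝ) × ℝ)
    (hx : ∀ d, p.1 (T.io d) = p.1 d) (g : D → SL)
    (hg : ∀ d, t.Rs p d * g (T.sg d) = g d * W ∧ t.Ri p d * g (T.io d) = g d * E ((t.tw p).1 d))
    (hJ : t.RJ p * g P.v = g P.u * P.J (t.tw p))
    (hio : ∀ d, (t.tw p).1 (T.io d) = (t.tw p).1 d) (w : D × ℕ) (hw : w.2 < T.num t.c w.1) :
    g w.1 * P.hol (t.tw p) (P.sletters t.c t.a w) w.1 =
      t.Pd p w.1 w.2 * P.hol p (P.sletters t.c t.a w) w.1 *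
        (t.Pd p (P.snext t.c t.a w).1 (P.snext t.c t.a w).2)⁻¹ *
          g (P.snext t.c t.a w).1 := by
  have h1 := hT T P t p hx w.1 w.2 hw
  simp only [Prod.mk.eta] at h1
  rw [← h1]
  have h2 := (hL T P t.c t.a t.hc (t.tw p) hio w hw).2.2.1
  rw [h2]
  have h3 := xm_gauge t p g (fun d => (hg d).2) hJ hio (Portal.out (T := T) t.c w)
  rw [mul_assoc]
  show _ = _ * (t.xR p (Portal.out t.c w) * g (P.cross t.c t.a (Portal.out t.c w)).1)
  rw [← h3, out_fst, ← mul_assoc, ← mul_assoc]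
  congr 1
  cases Tri.sbit t.c w with
  | true =>
    simp only [if_true]
    exact (hg w.1).1.symm
  | false =>
    simp only [Bool.false_eq_true, if_false]
    rw [mul_assoc (t.Rs p w.1), (hg (T.sg w.1)).1, ← mul_assoc, ← mul_assoc, (hg w.1).1]

theorem loop_n (hC : C_comb) (hL : C_let) (hT : C_tele) (t : PTD P) (p : (D → ℝ) × ℝ)
    (hx : ∀ d, p.1 (T.io d) = p.1 d) (g : D → SL)
    (hg : ∀ d, t.Rs p d * g (T.sg d) = g d * W ∧ t.Ri p d * g (T.io d) = g d * E ((t.tw p).1 d))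
    (hJ : t.RJ p * g P.v = g P.u * P.J (t.tw p))
    (hio : ∀ d, (t.tw p).1 (T.io d) = (t.tw p).1 d) (n : ℕ) :
    ∀ w : D × ℕ, w.2 < T.num t.c w.1 →
    g w.1 * P.hol (t.tw p) (P.itin t.c t.a n w) w.1 =
      t.Pd p w.1 w.2 * P.hol p (P.itin t.c t.a n w) w.1 *
        (t.Pd p ((P.snext t.c t.a)^[n] w).1 ((P.snext t.c t.a)^[n] w).2)⁻¹ *
          g ((P.snext t.c t.a)^[n] w).1 := by
  induction n with
  | zero => intro w _; simp [Portal.itin, Portal.hol]
  | succ n ih =>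
    intro w hw
    have h1 := loop_step hL hT t p hx g hg hJ hio w hw
    have h2 := ih (P.snext t.c t.a w) (hC T P t.c t.a t.hc w hw).2.2.2.2.2
    have h3 := (hL T P t.c t.a t.hc p hx w hw).2.1
    rw [Function.iterate_succ_apply]
    show g w.1 * P.hol (t.tw p) (P.sletters t.c t.a w ++ P.itin t.c t.a n (P.snext t.c t.a w)) w.1
      = t.Pd p w.1 w.2 *
        P.hol p (P.sletters t.c t.a w ++ P.itin t.c t.a n (P.snext t.c t.a w)) w.1 * _ * _
    rw [hol_append, hol_append, h3, ← mul_assoc (g w.1), h1, mul_assoc _ (g _), h2]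
    group

/-- C_loop. -/
theorem loop (hC : C_comb) (hL : C_let) (hT : C_tele) : C_loop := by
  intro D _ _ T P t p hp g hg hJ hio d i hi
  have h := loop_n hC hL hT t p hp.1 g hg hJ hio t.Q (d, i) hi
  rw [t.per d i hi] at h
  have h2 : P.hol (t.tw p) (P.itin t.c t.a t.Q (d, i)) d =
      (g d)⁻¹ * (t.Pd p d i * P.hol p (P.itin t.c t.a t.Q (d, i)) d *
        (t.Pd p d i)⁻¹ * g d) := by
    rw [← h]; group
  show P.hol (t.tw p) (P.itin t.c t.a t.Q (d, i)) d = _
  rw [h2]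
  simp only [PTD.str, mul_assoc]

end Run7.h896.DG
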