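import Pool.Agent.Run7.h896.DG.CLoop

/-!
# The twisted surface is the same surface: `C_same` (helper896)

`C_comb → C_let → C_gauge → C_twT → C_loop → C_same`.
-/

open Real Matrix Filter Topology

noncomputable section

namespace Run7.h896.DG

open Run7.h568.DG

theorem W_inv : (W : SL)⁻¹ = -(W * W) := by
  rw [inv_eq_iff_mul_eq_one, mul_neg]
  apply Subtype.ext
  show -((W : SL).1 * ((W : SL).1 * (W : SL).1)) = (1 : Matrix (Fin 2) (Fin 2) ℝ)
  rw [show (W : SL).1 = !![1, -1; 1, 0] from rfl]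
  ext i j
  fin_cases i <;> fin_cases j <;> simp [Matrix.mul_apply, Fin.sum_univ_two]

theorem E_inv (s : ℝ) : (E s)⁻¹ = -(E s) := by
  rw [inv_eq_iff_mul_eq_one, mul_neg]
  apply Subtype.ext
  show -((E s).1 * (E s).1) = (1 : Matrix (Fin 2) (Fin 2) ℝ)
  rw [show (E s).1 = !![0, exp (s / 2); -exp (-s / 2), 0] from rfl]
  ext i j
  fin_cases i <;> fin_cases j <;>
    simp [Matrix.mul_apply, Fin.sum_univ_two, ← exp_add] <;> ring_nf <;> simp

variable {D : Type} [Fintype D] [DecidableEq D] {T : Tri D} {P : Portal T} {p : (D → ℝ) × ℝ}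

theorem path_mul {d d' : D} {g : SL} (h1 : P.Path p d d' g) {d'' : D} {g' : SL}
    (h2 : P.Path p d' d'' g') : P.Path p d d'' (g * g') := by
  induction h2 with
  | one => simpa using h1
  | neg _ ih => rw [mul_neg]; exact ih.neg
  | sg _ ih => rw [← mul_assoc]; exact ih.sg
  | io _ ih => rw [← mul_assoc]; exact ih.io
  | cr _ ih => rw [← mul_assoc]; exact ih.cr
  | ri _ ih => rw [← mul_assoc]; exact ih.ri

theorem path_one (d : D) : P.Path p d d 1 := Portal.Path.one

theorem path_W (d : D) : P.Path p d (T.sg d) W := by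
  have h : P.Path p d (T.sg d) (1 * W) := (path_one d).sg
  rwa [one_mul] at h

theorem path_E (d : D) : P.Path p d (T.io d) (E (p.1 d)) := by
  have h : P.Path p d (T.io d) (1 * E (p.1 d)) := (path_one d).io
  rwa [one_mul] at h

theorem path_J : P.Path p P.u P.v (P.J p) := by
  have h : P.Path p P.u P.v (1 * P.J p) := (path_one P.u).cr
  rwa [one_mul] at h

theorem path_Jinv : P.Path p P.v P.u (P.J p)⁻¹ := by
  have h : P.Path p P.v P.u (1 * (P.J p)⁻¹) := (path_one P.v).ri
  rwa [one_mul] at h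

theorem path_inv (hx : ∀ d, p.1 (T.io d) = p.1 d) {d d' : D} {g : SL} (h1 : P.Path p d d' g) :
    P.Path p d' d g⁻¹ := by
  induction h1 with
  | one => simpa using path_one d
  | neg _ ih =>
    rw [show ∀ g : SL, (-g)⁻¹ = -g⁻¹ from fun g => by
      rw [inv_eq_iff_mul_eq_one]; simp]
    exact ih.neg
  | @sg d' g _ ih =>
    rw [_root_.mul_inv_rev, W_inv]
    refine path_mul ?_ ih
    have h3 : P.Path p (T.sg d') (T.sg (T.sg (T.sg d'))) (W * W) :=
      path_mul (path_W _) (path_W _)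
    rw [T.sg3] at h3
    exact h3.neg
  | @io d' g _ ih =>
    rw [_root_.mul_inv_rev, E_inv]
    refine path_mul ?_ ih
    have h3 : P.Path p (T.io d') (T.io (T.io d')) (E (p.1 (T.io d'))) := path_E _
    rw [T.io_io, hx] at h3
    exact h3.neg
  | @cr g _ ih =>
    rw [_root_.mul_inv_rev]
    exact path_mul path_Jinv ih
  | @ri g _ ih =>
    rw [_root_.mul_inv_rev, inv_inv]
    exact path_mul path_J ih

theorem path_zpow (hx : ∀ d, p.1 (T.io d) = p.1 d) {d : D} {g : SL} (h1 : P.Path p d d g)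
    (m : ℤ) : P.Path p d d (g ^ m) := by
  have hn : ∀ n : ℕ, P.Path p d d (g ^ n) := by
    intro n
    induction n with
    | zero => simpa using path_one d
    | succ n ih => rw [pow_succ]; exact path_mul ih h1
  rcases m with n | n
  · simpa using hn n
  · rw [zpow_negSucc]
    exact path_inv hx (hn (n + 1))

theorem path_xm (P : Portal T) (p : (D → ℝ) × ℝ) (hx : ∀ d, p.1 (T.io d) = p.1 d)
    (c : D → ℕ) (a : ℕ) (s : D × ℕ) :
    P.Path p s.1 (P.cross c a s).1 (P.xm p c a s) := by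
  rcases cross_fst P c a s with ⟨h1, h2, h3⟩ | ⟨h1, h2, h3, h4⟩ | ⟨h1, h2, h3⟩
  · unfold Portal.xm
    rw [if_pos ⟨h1, h2⟩, h3, h1]
    have h := path_E (P := P) (p := p) (T.io P.u)
    rw [T.io_io, hx] at h
    exact path_mul h path_J
  · unfold Portal.xm
    have hn : ¬ (s.1 = T.io P.u ∧ T.num c P.u ≤ s.2) := fun h => h3 h.1
    rw [if_neg hn, if_pos ⟨h1, h2⟩, h4, h1]
    exact path_mul path_Jinv (path_E P.u)
  · unfold Portal.xm
    rw [if_neg h1, if_neg h2, h3]
    exact path_E s.1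

theorem path_sletters (hL : C_let) (c : D → ℕ) (a : ℕ) (hc : P.Match c a)
    (hx : ∀ d, p.1 (T.io d) = p.1 d) (w : D × ℕ) (hw : w.2 < T.num c w.1) :
    P.Path p w.1 (P.snext c a w).1 (P.hol p (P.sletters c a w) w.1) := by
  rw [(hL T P c a hc p hx w hw).2.2.1]
  refine path_mul ?_ (path_xm P p hx c a (Portal.out (T := T) c w))
  rw [out_fst]
  cases Tri.sbit c w with
  | true => simp only [if_true]; exact path_W _
  | false => simp only [Bool.false_eq_true, if_false]; exact path_mul (path_W _) (path_W _)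

theorem path_itin (hC : C_comb) (hL : C_let) (c : D → ℕ) (a : ℕ) (hc : P.Match c a)
    (hx : ∀ d, p.1 (T.io d) = p.1 d) (n : ℕ) : ∀ w : D × ℕ, w.2 < T.num c w.1 →
    P.Path p w.1 ((P.snext c a)^[n] w).1 (P.hol p (P.itin c a n w) w.1) := by
  induction n with
  | zero => intro w _; exact path_one _
  | succ n ih =>
    intro w hw
    rw [Function.iterate_succ_apply]
    show P.Path p w.1 _ (P.hol p (P.sletters c a w ++ P.itin c a n (P.snext c a w)) w.1)
    rw [hol_append, (hL T P c a hc p hx w hw).2.1]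
    exact path_mul (path_sletters hL c a hc hx w hw)
      (ih (P.snext c a w) (hC T P c a hc w hw).2.2.2.2.2)

theorem path_str (hC : C_comb) (hL : C_let) (hx : ∀ d, p.1 (T.io d) = p.1 d) (t : PTD P)
    {d : D} {i : ℕ} (hi : i < T.num t.c d) : P.Path p d d (t.str p (d, i)) := by
  have h := path_itin (p := p) hC hL t.c t.a t.hc hx t.Q (d, i) hi
  rw [t.per d i hi] at h
  exact h

theorem Pd_succ (t : PTD P) (d : D) (n : ℕ) :
    t.Pd p d (n + 1) = t.Pd p d n * t.str p (d, n) ^ t.m (d, n) := by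
  unfold PTD.Pd
  rw [List.range_succ, List.map_append, List.prod_append]
  simp

theorem path_Pd (hC : C_comb) (hL : C_let) (hx : ∀ d, p.1 (T.io d) = p.1 d) (t : PTD P) (d : D)
    (n : ℕ) (hn : n ≤ T.num t.c d) : P.Path p d d (t.Pd p d n) := by
  induction n with
  | zero => simpa [PTD.Pd] using path_one d
  | succ n ih =>
    rw [Pd_succ]
    exact path_mul (ih (by omega)) (path_zpow hx (path_str hC hL hx t (by omega)) _)

theorem path_Pd' (hC : C_comb) (hL : C_let) (hLo : C_loop) (hp : p ∈ P.Teich) (t : PTD P)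
    (g : D → SL)
    (hg : ∀ d, t.Rs p d * g (T.sg d) = g d * W ∧ t.Ri p d * g (T.io d) = g d * E ((t.tw p).1 d))
    (hJ : t.RJ p * g P.v = g P.u * P.J (t.tw p))
    (hx' : ∀ d, (t.tw p).1 (T.io d) = (t.tw p).1 d) (d : D) (n : ℕ)
    (hn : n ≤ T.num t.c d) :
    P.Path (t.tw p) d d ((g d)⁻¹ * t.Pd p d n * g d) := by
  induction n with
  | zero => simpa [PTD.Pd] using path_one d
  | succ n ih =>
    have h1 := path_zpow hx' (path_str (p := t.tw p) hC hL hx' t (d := d) (i := n) (by omega))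
      (t.m (d, n))
    rw [hLo T P t p hp g hg hJ hx' d n (by omega)] at h1
    have h2 : ((g d)⁻¹ * t.Pd p d n * t.str p (d, n) * (t.Pd p d n)⁻¹ * g d) ^ t.m (d, n) =
        (g d)⁻¹ * t.Pd p d n * t.str p (d, n) ^ t.m (d, n) * (t.Pd p d n)⁻¹ * g d := by
      have h3 := conj_zpow (i := t.m (d, n)) (a := (g d)⁻¹ * t.Pd p d n) (b := t.str p (d, n))
      rw [_root_.mul_inv_rev, inv_inv] at h3
      simp only [mul_assoc] at h3 ⊢
      exact h3
    rw [h2] at h1
    have h4 := path_mul h1 (ih (by omega))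
    rw [Pd_succ]
    have h5 : (g d)⁻¹ * t.Pd p d n * t.str p (d, n) ^ t.m (d, n) * (t.Pd p d n)⁻¹ * g d *
        ((g d)⁻¹ * t.Pd p d n * g d) =
        (g d)⁻¹ * (t.Pd p d n * t.str p (d, n) ^ t.m (d, n)) * g d := by
      group
    rw [h5] at h4
    exact h4

theorem inv_neg' (g : SL) : (-g)⁻¹ = -g⁻¹ := by
  rw [inv_eq_iff_mul_eq_one]; simp

/-- The twisted transports across edges. -/
theorem Ri_cases (t : PTD P) (p : (D → ℝ) × ℝ) (d : D) :
    (∃ e, d = T.io e ∧ t.Ri p d = -(t.H p e * E (p.1 e))⁻¹ ∧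
      t.Ri p e = t.H p e * E (p.1 e)) ∨ t.Ri p d = t.H p d * E (p.1 d) := by
  have huv : P.u ≠ P.v := P.huv 0
  by_cases h1 : d = T.io P.u
  · left
    refine ⟨P.u, h1, by unfold PTD.Ri; rw [if_pos h1], ?_⟩
    unfold PTD.Ri
    rw [if_neg (T.io_ne P.u).symm, if_neg]
    intro h
    exact P.hne (by rw [h, T.io_io])
  · by_cases h2 : d = T.io P.v
    · left
      refine ⟨P.v, h2, by unfold PTD.Ri; rw [if_neg h1, if_pos h2], ?_⟩
      unfold PTD.Ri
      rw [if_neg P.hne, if_neg (T.io_ne P.v).symm]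
    · right
      unfold PTD.Ri
      rw [if_neg h1, if_neg h2]

theorem path_Ri (hC : C_comb) (hL : C_let) (hx : ∀ d, p.1 (T.io d) = p.1 d) (t : PTD P) (d : D) :
    P.Path p d (T.io d) (t.Ri p d) := by
  rcases Ri_cases t p d with ⟨e, h1, h2, _⟩ | h1
  · rw [h2, h1, T.io_io]
    exact (path_inv hx (path_mul (path_Pd hC hL hx t e _ le_rfl) (path_E e))).neg
  · rw [h1]
    exact path_mul (path_Pd hC hL hx t d _ le_rfl) (path_E d)

theorem a_le (t : PTD P) : t.a ≤ T.num t.c P.v := by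
  have := t.hc.2.2
  omega

/-- C_same. -/
theorem same (hC : C_comb) (hL : C_let) (hG : C_gauge) (hTw : C_twT) (hLo : C_loop) :
    C_same := by
  intro D _ _ T P t p hp d
  obtain ⟨g, hg0, hgJ1, hgJ2⟩ := hG T P t p hp
  obtain ⟨htw, _, hJ0⟩ := hTw T P t p hp
  have hJ := hJ0 g hg0 hgJ1 hgJ2
  have hx := hp.1
  have hx' : ∀ d, (t.tw p).1 (T.io d) = (t.tw p).1 d := htw.1
  have hg : ∀ d, t.Rs p d * g (T.sg d) = g d * W ∧
      t.Ri p d * g (T.io d) = g d * E ((t.tw p).1 d) := fun d => ⟨(hg0 d).1, (hg0 d).2.1⟩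
  have hRs : ∀ d', P.Path p d' (T.sg d') (t.Rs p d') := fun d' =>
    path_mul (path_Pd hC hL hx t d' _ le_rfl) (path_W d')
  have hRi : ∀ d', P.Path p d' (T.io d') (t.Ri p d') := fun d' => path_Ri hC hL hx t d'
  have hRJ : P.Path p P.u P.v (t.RJ p) :=
    path_mul path_J (path_inv hx (path_Pd hC hL hx t P.v _ (a_le t)))
  have hto : ∀ {d' : D} {h : SL}, P.Path (t.tw p) d d' h →
      P.Path p d d' (g d * h * (g d')⁻¹) := by
    intro d' h hp
    induction hp with
    | one => simpa using path_one d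
    | neg _ ih => rw [mul_neg, neg_mul]; exact ih.neg
    | @sg d' h _ ih =>
      have h1 : g d * (h * W) * (g (T.sg d'))⁻¹ =
          g d * h * (g d')⁻¹ * t.Rs p d' := by
        have h2 : t.Rs p d' = g d' * W * (g (T.sg d'))⁻¹ := by
          rw [← (hg d').1]; group
        rw [h2]; group
      rw [h1]
      exact path_mul ih (hRs d')
    | @io d' h _ ih =>
      have h1 : g d * (h * E ((t.tw p).1 d')) * (g (T.io d'))⁻¹ =
          g d * h * (g d')⁻¹ * t.Ri p d' := by
        have h2 : t.Ri p d' = g d' * E ((t.tw p).1 d') * (g (T.io d'))⁻¹ := by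
          rw [← (hg d').2]; group
        rw [h2]; group
      rw [h1]
      exact path_mul ih (hRi d')
    | @cr h _ ih =>
      have h1 : g d * (h * P.J (t.tw p)) * (g P.v)⁻¹ =
          g d * h * (g P.u)⁻¹ * t.RJ p := by
        have h2 : t.RJ p = g P.u * P.J (t.tw p) * (g P.v)⁻¹ := by
          rw [← hJ]; group
        rw [h2]; group
      rw [h1]
      exact path_mul ih hRJ
    | @ri h _ ih =>
      have h1 : g d * (h * (P.J (t.tw p))⁻¹) * (g P.u)⁻¹ =
          g d * h * (g P.v)⁻¹ * (t.RJ p)⁻¹ := by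
        have h2 : t.RJ p = g P.u * P.J (t.tw p) * (g P.v)⁻¹ := by
          rw [← hJ]; group
        rw [h2]; group
      rw [h1]
      exact path_mul ih (path_inv hx hRJ)
  -- the generators of the old surface are paths of the new one
  have kW : ∀ d', P.Path (t.tw p) d' (T.sg d') ((g d')⁻¹ * W * g (T.sg d')) := by
    intro d'
    have h1 : (g d')⁻¹ * W * g (T.sg d') = ((g d')⁻¹ * t.H p d' * g d')⁻¹ * W := by
      have h2 : W * g (T.sg d') = (t.H p d')⁻¹ * (g d' * W) := by
        rw [← (hg d').1]; unfold PTD.Rs; group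
      rw [mul_assoc _ W, h2]; group
    rw [h1]
    exact path_mul (path_inv hx' (path_Pd' hC hL hLo hp t g hg hJ hx' d' _ le_rfl)) (path_W d')
  have kE0 : ∀ d', t.Ri p d' = t.H p d' * E (p.1 d') →
      P.Path (t.tw p) d' (T.io d') ((g d')⁻¹ * E (p.1 d') * g (T.io d')) := by
    intro d' hr
    have h1 : (g d')⁻¹ * E (p.1 d') * g (T.io d') =
        ((g d')⁻¹ * t.H p d' * g d')⁻¹ * E ((t.tw p).1 d') := by
      have h2 : E (p.1 d') * g (T.io d') = (t.H p d')⁻¹ * (g d' * E ((t.tw p).1 d')) := by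
        rw [← (hg d').2, hr]; group
      rw [mul_assoc _ (E (p.1 d')), h2]; group
    rw [h1]
    exact path_mul (path_inv hx' (path_Pd' hC hL hLo hp t g hg hJ hx' d' _ le_rfl)) (path_E d')
  have kE : ∀ d', P.Path (t.tw p) d' (T.io d') ((g d')⁻¹ * E (p.1 d') * g (T.io d')) := by
    intro d'
    rcases Ri_cases t p d' with ⟨e, h1, _, h3⟩ | h1
    · have h4 := (path_inv hx' (kE0 e h3)).neg
      rw [h1, T.io_io, hx]
      have h5 : (g (T.io e))⁻¹ * E (p.1 e) * g e = -((g e)⁻¹ * E (p.1 e) * g (T.io e))⁻¹ := by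
        rw [_root_.mul_inv_rev, _root_.mul_inv_rev, inv_inv, E_inv]
        simp only [mul_neg, neg_mul, neg_neg, mul_assoc]
      rw [h5]
      exact h4
    · exact kE0 d' h1
  have kJ : P.Path (t.tw p) P.u P.v ((g P.u)⁻¹ * P.J p * g P.v) := by
    have h1 : (g P.u)⁻¹ * P.J p * g P.v =
        P.J (t.tw p) * ((g P.v)⁻¹ * t.B p * g P.v) := by
      have h2 : P.J (t.tw p) = (g P.u)⁻¹ * (t.RJ p * g P.v) := by
        rw [hJ]; group
      rw [h2]; unfold PTD.RJ; group
    rw [h1]
    exact path_mul path_J (path_Pd' hC hL hLo hp t g hg hJ hx' P.v _ (a_le t))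
  have hfrom : ∀ {d' : D} {k : SL}, P.Path p d d' k →
      P.Path (t.tw p) d d' ((g d)⁻¹ * k * g d') := by
    intro d' k hp
    induction hp with
    | one => simpa using path_one d
    | neg _ ih => rw [mul_neg, neg_mul]; exact ih.neg
    | @sg d' k _ ih =>
      have h1 : (g d)⁻¹ * (k * W) * g (T.sg d') =
          (g d)⁻¹ * k * g d' * ((g d')⁻¹ * W * g (T.sg d')) := by group
      rw [h1]
      exact path_mul ih (kW d')
    | @io d' k _ ih =>
      have h1 : (g d)⁻¹ * (k * E (p.1 d')) * g (T.io d') =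
          (g d)⁻¹ * k * g d' * ((g d')⁻¹ * E (p.1 d') * g (T.io d')) := by group
      rw [h1]
      exact path_mul ih (kE d')
    | @cr k _ ih =>
      have h1 : (g d)⁻¹ * (k * P.J p) * g P.v =
          (g d)⁻¹ * k * g P.u * ((g P.u)⁻¹ * P.J p * g P.v) := by group
      rw [h1]
      exact path_mul ih kJ
    | @ri k _ ih =>
      have h1 : (g d)⁻¹ * (k * (P.J p)⁻¹) * g P.u =
          (g d)⁻¹ * k * g P.v * ((g P.u)⁻¹ * P.J p * g P.v)⁻¹ := by group
      rw [h1]
      exact path_mul ih (path_inv hx' kJ)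
  refine ⟨g d, fun h => ⟨fun hp => hto hp, fun hp => ?_⟩⟩
  have h1 := hfrom hp
  have h2 : (g d)⁻¹ * (g d * h * (g d)⁻¹) * g d = h := by group
  rwa [h2] at h1

end Run7.h896.DG
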