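import Pool.Agent.Run7.h568.DG.CIface

/-!
# Scaling of lengths: `C_mat → C_tr → C_scal` (helper896)
-/

open Real Matrix Filter Topology

noncomputable section

namespace Run7.h896.DG

open Run7.h568.DG

theorem mul_entry (a b : SL) (i j : Fin 2) :
    (a * b).1 i j = a.1 i 0 * b.1 0 j + a.1 i 1 * b.1 1 j := by
  show (a.1 * b.1) i j = _
  rw [Matrix.mul_apply, Fin.sum_univ_two]

/-- Entries of `b` are at most the `k`-th powers of those of `a`. -/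
def Dom (k : ℝ) (b a : SL) : Prop :=
  ∀ i j, 0 ≤ b.1 i j ∧ 0 ≤ a.1 i j ∧ b.1 i j ≤ (a.1 i j) ^ k

theorem Dom.mul {k : ℝ} (hk : 1 ≤ k) {b a b' a' : SL} (h : Dom k b a) (h' : Dom k b' a') :
    Dom k (b * b') (a * a') := by
  intro i j
  rw [mul_entry, mul_entry]
  obtain ⟨h1, h2, h3⟩ := h i 0
  obtain ⟨h4, h5, h6⟩ := h i 1
  obtain ⟨h1', h2', h3'⟩ := h' 0 j
  obtain ⟨h4', h5', h6'⟩ := h' 1 j
  refine ⟨add_nonneg (mul_nonneg h1 h1') (mul_nonneg h4 h4'),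
    add_nonneg (mul_nonneg h2 h2') (mul_nonneg h5 h5'), ?_⟩
  calc b.1 i 0 * b'.1 0 j + b.1 i 1 * b'.1 1 j
      ≤ (a.1 i 0) ^ k * (a'.1 0 j) ^ k + (a.1 i 1) ^ k * (a'.1 1 j) ^ k :=
        add_le_add (mul_le_mul h3 h3' h1' (Real.rpow_nonneg h2 k))
          (mul_le_mul h6 h6' h4' (Real.rpow_nonneg h5 k))
    _ = (a.1 i 0 * a'.1 0 j) ^ k + (a.1 i 1 * a'.1 1 j) ^ k := by
        rw [Real.mul_rpow h2 h2', Real.mul_rpow h5 h5']
    _ ≤ _ := Real.add_rpow_le_rpow_add (mul_nonneg h2 h2') (mul_nonneg h5 h5') hk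

theorem Dom.one {k : ℝ} (hk : 1 ≤ k) : Dom k 1 1 := by
  intro i j
  have h0 : k ≠ 0 := by linarith
  show 0 ≤ (1 : Matrix (Fin 2) (Fin 2) ℝ) i j ∧ 0 ≤ (1 : Matrix (Fin 2) (Fin 2) ℝ) i j ∧
    (1 : Matrix (Fin 2) (Fin 2) ℝ) i j ≤ ((1 : Matrix (Fin 2) (Fin 2) ℝ) i j) ^ k
  rw [Matrix.one_apply]
  split_ifs
  · simp
  · simp [Real.zero_rpow h0]

theorem Dom.pow {k : ℝ} (hk : 1 ≤ k) {b a : SL} (h : Dom k b a) (n : ℕ) :
    Dom k (b ^ n) (a ^ n) := by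
  induction n with
  | zero => simpa using Dom.one hk
  | succ n ih => rw [pow_succ, pow_succ]; exact ih.mul hk h

theorem Dom.tr {k : ℝ} (hk : 1 ≤ k) {b a : SL} (h : Dom k b a) : tr b ≤ (tr a) ^ k := by
  unfold Run7.h568.DG.tr
  obtain ⟨h1, h2, h3⟩ := h 0 0
  obtain ⟨h4, h5, h6⟩ := h 1 1
  exact (add_le_add h3 h6).trans (Real.add_rpow_le_rpow_add h2 h5 hk)

theorem tr_rec (g A : SL) : tr (g * A * A) = tr A * tr (g * A) - tr g := by
  have hd : A.1 0 0 * A.1 1 1 - A.1 0 1 * A.1 1 0 = 1 := by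
    rw [← Matrix.det_fin_two]; exact A.2
  unfold tr
  rw [mul_entry, mul_entry (g * A) A 1 1, mul_entry g A, mul_entry g A, mul_entry g A,
    mul_entry g A]
  linear_combination (-(g.1 0 0) - g.1 1 1) * hd

theorem tr_pow {A : SL} {a : ℝ} (ha : a ≠ 0) (h : a + a⁻¹ = tr A) (n : ℕ) :
    tr (A ^ n) = a ^ n + a⁻¹ ^ n ∧ tr (A ^ (n + 1)) = a ^ (n + 1) + a⁻¹ ^ (n + 1) := by
  induction n with
  | zero =>
    constructor
    · unfold tr; simp
    · simp [h]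
  | succ n ih =>
    refine ⟨ih.2, ?_⟩
    have h1 : A ^ (n + 1 + 1) = A ^ n * A * A := by rw [pow_succ, pow_succ]
    have h2 : A ^ n * A = A ^ (n + 1) := (pow_succ A n).symm
    rw [h1, tr_rec, h2, ih.1, ih.2, ← h]
    have h3 : a * a⁻¹ = 1 := mul_inv_cancel₀ ha
    rw [pow_succ a (n + 1), pow_succ a⁻¹ (n + 1), pow_succ a n, pow_succ a⁻¹ n]
    linear_combination (a ^ n + a⁻¹ ^ n) * h3

theorem eig {t : ℝ} (ht : 2 < t) : 1 < (t + √(t ^ 2 - 4)) / 2 ∧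
    (t + √(t ^ 2 - 4)) / 2 + ((t + √(t ^ 2 - 4)) / 2)⁻¹ = t := by
  have h0 : 0 ≤ t ^ 2 - 4 := by nlinarith
  have h1 := Real.sqrt_nonneg (t ^ 2 - 4)
  have h2 := Real.mul_self_sqrt h0
  have h3 : 1 < (t + √(t ^ 2 - 4)) / 2 := by linarith
  refine ⟨h3, ?_⟩
  have h4 : ((t + √(t ^ 2 - 4)) / 2)⁻¹ = (t - √(t ^ 2 - 4)) / 2 := by
    refine inv_eq_of_mul_eq_one_right ?_
    linear_combination (-(1 : ℝ) / 4) * h2
  rw [h4]
  ring

theorem le_of_pows {a b k : ℝ} (ha : 1 < a) (hb : 1 < b)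
    (h : ∀ n : ℕ, b ^ n + b⁻¹ ^ n ≤ (a ^ n + a⁻¹ ^ n) ^ k) (hk : 1 ≤ k) : b ≤ a ^ k := by
  by_contra hlt
  push Not at hlt
  have ha0 : 0 < a := by linarith
  have hak : 0 < a ^ k := Real.rpow_pos_of_pos ha0 k
  have hr : 1 < b / a ^ k := by rwa [one_lt_div hak]
  obtain ⟨n, hn⟩ := pow_unbounded_of_one_lt ((2 : ℝ) ^ k) hr
  have h1 := h n
  have h2 : a⁻¹ ^ n ≤ a ^ n := by
    have : a⁻¹ ≤ 1 := inv_le_one_of_one_le₀ ha.le
    have h3 : a⁻¹ ^ n ≤ 1 := pow_le_one₀ (by positivity) this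
    have h4 : 1 ≤ a ^ n := one_le_pow₀ ha.le
    linarith
  have h3 : 0 ≤ b⁻¹ ^ n := by positivity
  have h4 : b ^ n ≤ (2 * a ^ n) ^ k := by
    have : (a ^ n + a⁻¹ ^ n) ^ k ≤ (2 * a ^ n) ^ k :=
      Real.rpow_le_rpow (by positivity) (by linarith) (by linarith)
    linarith
  have h5 : (2 * a ^ n) ^ k = 2 ^ k * (a ^ k) ^ n := by
    rw [Real.mul_rpow (by norm_num) (by positivity)]
    congr 1
    rw [← Real.rpow_natCast, ← Real.rpow_natCast, ← Real.rpow_mul ha0.le, ← Real.rpow_mul ha0.le,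
      mul_comm]
  rw [h5] at h4
  rw [div_pow] at hn
  rw [lt_div_iff₀ (pow_pos hak n)] at hn
  linarith

variable {D : Type} [Fintype D] [DecidableEq D] {T : Tri D}

theorem dom_hol (hM : C_mat) (P : Portal T) {p : (D → ℝ) × ℝ} (hp : p ∈ P.Teich) {k : ℝ}
    (hk : 1 ≤ k) (w : List Letter) : ∀ d, P.Valid w d →
    Dom k (P.hol (k • p) w d) (P.hol p w d) := by
  induction w with
  | nil => intro d _; exact Dom.one hk
  | cons l w ih =>
    intro d hv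
    obtain ⟨hok, hv⟩ := hv
    have h1 := hM T P p hp
    have h2 := hM T P (k • p) ((h1.1 k (by linarith)).1)
    have h3 : Dom k (P.mat (k • p) d l) (P.mat p d l) := by
      intro i j
      exact ⟨(h2.2 1 le_rfl d l hok i j).1, (h1.2 k hk d l hok i j).1,
        (h1.2 k hk d l hok i j).2⟩
    exact h3.mul hk (ih _ hv)

/-- C_scal. -/
theorem scal (hM : C_mat) (hT : C_tr) : C_scal := by
  intro D _ _ T P p hp k hk w d hw
  obtain ⟨hv, _, hwT, hwF⟩ := hw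
  have hp' : k • p ∈ P.Teich := ((hM T P p hp).1 k (by linarith)).1
  have hd := dom_hol hM P hp hk w d hv
  have hA := (hT T P p hp w d hv hwT hwF).2
  have hB := (hT T P (k • p) hp' w d hv hwT hwF).2
  obtain ⟨ha1, ha2⟩ := eig hA
  obtain ⟨hb1, hb2⟩ := eig hB
  have hle := le_of_pows (k := k) ha1 hb1 (fun n => by
    have h1 := (hd.pow hk n).tr hk
    rw [(tr_pow (by linarith) ha2 n).1, (tr_pow (by linarith) hb2 n).1] at h1
    exact h1) hk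
  unfold Portal.len
  have h3 := Real.log_le_log (by linarith) hle
  rw [Real.log_rpow (by linarith)] at h3
  linarith

end Run7.h896.DG
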